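import Pool.Agent.Q41.RA.Pat

set_option autoImplicit false

/-!
# Partitions without parts congruent to 3 modulo 6: patterns on progressions (MP_57720d_nt)

Let `a(n)` be the number of partitions of `n` in which no part is congruent to 3 modulo 6, and
`4 ∣ M`. There is a constant `C` such that every linear combination `∑_{i < K} c_i a(n + i)` modulo 2,
`n ≡ ρ (mod M)`, with some `c_i ≠ 0`, `ρ + i ≡ 0` or `1 (mod 4)`, takes both values in every interval
`[A, C (A + K)]`. In particular `a(M m + B)` takes both parities if `B ≡ 0, 1 (mod 4)`.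

Method. By the theorem on joint patterns of eta-quotients (starting file
`MP_a3366f_nt/EtaQuotients`) it is enough that `a(n)` is not identically even on a progression
`ρ + i` modulo `M` with `ρ + i ≡ 0` or `1 (mod 4)`; this is the theorem of the file
`MP_24de68_nt/NoEvenProgression`.
-/

namespace Pool.Agent.Results.MP_57720d_nt.AllProgressions

/-- the number of the partitions of `n` in which no part is congruent to 3 modulo 6 -/
def a (n : ℕ) : ℕ :=
  ((Finset.univ : Finset (Nat.Partition n)).filter fun P => ∀ i ∈ P.parts, i % 6 ≠ 3).card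

theorem result (M : ℕ) (hM : 0 < M) (hM4 : 4 ∣ M) :
    ∃ C : ℕ, ∀ (K : ℕ) (c : ℕ → ZMod 2) (ρ : ℕ),
      (∃ i < K, c i ≠ 0 ∧ ((ρ + i) % 4 = 0 ∨ (ρ + i) % 4 = 1)) →
      ∀ (κ : ZMod 2) (A : ℕ), ∃ n, A ≤ n ∧ n ≤ C * (A + K) ∧ n ≡ ρ [MOD M] ∧
        ∑ i ∈ Finset.range K, c i * (a (n + i) : ZMod 2) = κ :=
  Pool.Agent.Q41.RA.patterns_a M hM hM4

end Pool.Agent.Results.MP_57720d_nt.AllProgressions
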